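import Pool.Agent.K4H9.AL.Exp3

/-!
# Exponentially many null-homologous non-classical knots with unit Jones polynomial

Diagrams: `Pool.Agent.H891R2.Jones.Diagram` (starting library): `Crossing P`, `Diagram P` (oriented
diagrams with marked points `P`; the arcs only say which marked points are joined, so these are diagrams
of links in thickened surfaces, that is, virtual link diagrams), `Diagram.IsClosed`, `Diagram.fPoly` (the
normalised Kauffman bracket, a state sum in which all loops count equally; the Jones polynomial is `1` if
and only if `fPoly = 1`).

`Pool.Agent.K4H9.NJ.Stm`: `Move`, `Equivalent` (stable equivalence), `unknot`, `IsKnot` (closed, one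
component), `Adj`, `regions`, `NullHomologous` (the regions have an Alexander numbering).
`Pool.Agent.K4H9.AL.Cls`: `OnSphere`, `Classical` (stably equivalent to a knot diagram on the sphere).

The knots: for a word `l` in two letters `n ∈ {1, 2}`, `XD l` (`Pool.Agent.K4H9.AL.Exp`) is the closure of the
product of the `s_0^{-2n} v_1 s_1^2 v_1 s_1^{-2}` in a box with three strands directed upwards, downwards and
upwards.  The bracket does not see the second parts, so it is the one of a product of kinks.  The module of
the Fox colourings is cyclic of order `d`, where `(d, e)` is the image of `(1, 0)` under the product of the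
matrices `(1 + 8 n, 4; 2 n, 1)`; the pair `(d, e)` determines the word, and by the pigeonhole principle
the words of length `2 s + 1` have at least `2 ^ s` different values of `d`, which are invariants.

They are not classical for words of odd length: the order `d(t)` of the module of the Alexander colourings
over `ℝ`, as a function of `t > 0`, has a zero in `(1, 8)` and is at least `1` on `(0, 1)`, but for a knot diagram
on the sphere nonconstant colourings exist for `t` if and only if they exist for `t⁻¹`
(`Pool.Agent.K4H9.AL.Sym`).
-/

set_option autoImplicit false

namespace Pool.Agent.Results.MP_7bc610_gt.ExponentialGrowth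

open Pool.Agent.H891R2.Jones Pool.Agent.K4H9.NJ Pool.Agent.K4H9.AL

/-- For every `s` there are `2 ^ s` diagrams with at most `16 s + 8` crossings of knots in thickened
surfaces which are null-homologous, have the Jones polynomial of the unknot, are not stably equivalent to the
unknot or to any classical knot, and are pairwise not stably equivalent. -/
theorem result (s : ℕ) : ∃ (P : Fin (2 ^ s) → Type) (_ : ∀ i, DecidableEq (P i))
    (D : ∀ i, Diagram (P i)),
    (∀ i, (D i).crossings.length ≤ 16 * s + 8 ∧ IsKnot (D i) ∧ NullHomologous (D i) ∧
      (D i).fPoly = 1 ∧ ¬ Equivalent (D i) unknot ∧ ¬ Classical (D i)) ∧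
    ∀ i j, i ≠ j → ¬ Equivalent (D i) (D j) := by
  obtain ⟨w, hw1, hw2⟩ := many s
  refine ⟨_, fun i => inferInstance, fun i => XD (w i), fun i => ⟨?_, XD_knot _, (XO_nz _).close,
    XD_fPoly _, XD_nontrivial _ ?_, XD_nc _ ?_⟩, fun i j hij h => hw2 i j hij (XD_inj _ _ h)⟩
  · have h1 := XO_len (w i)
    rw [hw1] at h1
    show (XO (w i)).crossings.length ≤ _
    omega
  · intro h
    have h1 := hw1 i
    rw [h] at h1
    simp at h1
  · rw [hw1]
    exact ⟨s, rfl⟩

end Pool.Agent.Results.MP_7bc610_gt.ExponentialGrowth
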