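import Pool.Agent.K4H9.PO.Bound
import Pool.Agent.K4H9.PO.Spec
import Pool.Agent.K4H9.PO.U1
import Pool.Agent.K4H9.PO.U2
import Pool.Agent.K4H9.PO.U3
import Pool.Agent.K4H9.PO.U4

/-!
# Positive knot diagrams, and diagrams with few negative crossings, with unit Jones polynomial

Diagrams (`Pool.Agent.H891R2.HO.Defs`, starting library): `Shadow k` (the shadow of a diagram with `k > 0`
crossings on an arbitrary closed oriented surface: the involution `arc` without fixed points on the
`4 k` corners of the crossings; equivalently the shadow of a virtual diagram), `w : Fin k → Bool` (which
strand of each crossing is the lower one), `Shadow.Oriented` (orientation), `Shadow.IsKnot` (one component),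
`Shadow.loops` (number of circles of a state), `Shadow.sign`, `Shadow.f` (the normalised bracket
`(-A^3)^{-w} ⟨D⟩`; the Jones polynomial is `1` if and only if `f = 1`).

`Pool.Agent.K4H9.PO.Stm`, `Pool.Agent.K4H9.PO.Bound`: `circles G o` (the number `L` of Seifert circles),
`negs`, `poss` (the numbers of negative and of positive crossings), `RemoveKink` (a Reidemeister move of the
first kind which removes a crossing), `Unwinds` (reducible to the circle without crossings by such moves).

The number `(k + 1 - L) / 2` is the genus of the canonical Seifert surface of the diagram.

The proof: let `n` be the number of negative crossings.  A state which differs from the oriented smoothing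
at `m ≥ 1` crossings has at most `L + m - 1` circles (the first change of the oriented smoothing joins two
circles or keeps the number, on every surface; every further change adds at most one), and the exponent of
its weight is at most `k - 2 n - 2 m + 4 n`.  So the highest exponent of `f` is known exactly for `n = 0` and
is bounded above in general.  If `L = k + 1`, some Seifert circle passes through one crossing only, which is
a kink.
-/

set_option autoImplicit false

namespace Pool.Agent.Results.MP_7bc610_gt.FewNegativeCrossings

open Pool.Agent.H891R2.HO Pool.Agent.K4H9.PO

/-- Let `(G, w, o)` be an oriented knot diagram with `k > 0` crossings on any closed oriented surface (a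
virtual knot diagram), `L` the number of its Seifert circles, and `f` its normalised bracket.
(1) If all crossings are positive, the highest exponent of `A` in `f` is `-2 (k + 1 - L)`, with the
coefficient `1`.
(2) If there is no negative crossing or no positive crossing, then `f = 1` if and only if the diagram can be
reduced to the circle without crossings by removing kinks.
(3) If `f = 1` and the diagram has negative crossings, then `k + 3 ≤ L + 4 n₋`, and in the same way for the
positive crossings: the genus `(k + 1 - L) / 2` is at most `2 min (n₊, n₋) - 1`. -/
theorem result (k : ℕ) (G : Shadow k) (w : Fin k → Bool) (o : Fin k × Fin 4 → Bool)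
    (ho : G.Oriented o) (hK : G.IsKnot) :
    (negs w o = 0 → (G.f w o).coeff (-2 * (k + 1 - circles G o)) = 1 ∧
      ∀ j : ℤ, -2 * (k + 1 - circles G o) < j → (G.f w o).coeff j = 0) ∧
    (negs w o = 0 ∨ poss w o = 0 → (G.f w o = 1 ↔ Unwinds G)) ∧
    (G.f w o = 1 → (negs w o ≠ 0 → k + 3 ≤ circles G o + 4 * negs w o) ∧
      (poss w o ≠ 0 → k + 3 ≤ circles G o + 4 * poss w o)) := by
  refine ⟨fun hn => f_top G w o ho hK (positive_of_negs w o hn), fun hn => ⟨fun h1 => ?_, fun hU =>
    u4 u3 k G w o hU (Or.inr hK) ho⟩, fun h1 => ⟨fun hn => bound_of_one G w o ho hK hn h1, fun hn =>
    bound_of_one' G w o ho hK hn h1⟩⟩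
  refine unwinds u1 u2 k G o ho (Or.inr hK) ?_
  rcases hn with hn | hn
  · exact circles_of_one G w o ho hK (positive_of_negs w o hn) h1
  · exact circles_of_one' G w o ho hK (negative_of_poss w o hn) h1

end Pool.Agent.Results.MP_7bc610_gt.FewNegativeCrossings
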