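import Pool.Agent.K4H70.HB.Func

/-!
# Classical knots whose Jones polynomials tend to one in the Habiro topology

`Letter 4` is the set of the letters `σ_i^{±1}` of braid words on four strands, `Outer 4` is the part
outside a box of a link diagram on any closed oriented surface (virtual diagram) with four strands
running through the box, `dia O w` is the diagram with the braid word `w` in the box,
`dia (braidClosure 4) w` is the usual closure of `w`. `fPoly` is `f(A)`, `A = T 1`, and
`t = A^{-4} = T (-4)`, so that `1 - T (-4 * M) = 1 - t^M`.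
-/

set_option autoImplicit false

namespace Pool.Agent.Results.MP_7bc610_gt.HabiroLimit

open LaurentPolynomial Pool.Agent.H891R2.Jones Pool.Agent.W639.RB Pool.Agent.Y463.SK
open Pool.Agent.K4H70.HB

theorem lift_word (w : List (Bool × ℕ)) (hw : VW w) : ∃ w' : List (Letter 4), toN w' = w := by
  induction w with
  | nil => exact ⟨[], rfl⟩
  | cons x w ih =>
    obtain ⟨w', hw'⟩ := ih (fun y hy => hw y (List.mem_cons_of_mem _ hy))
    have hx := hw x List.mem_cons_self
    refine ⟨(x.1, ⟨x.2, by omega⟩) :: w', ?_⟩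
    rw [← hw']
    rfl

/-- the word `σ_1 σ_2 σ_3` -/
def vL : List (Letter 4) := [(true, 0), (true, 1), (true, 2)]

theorem pure_of {w : List (Letter 4)} (h : permL (toN w) = 1) : IsPure w := by
  unfold IsPure
  ext i
  have := (permL_toN w).1 i
  rw [h] at this
  exact this.symm

theorem kk_eps : eps kk ≠ 0 := by
  unfold kk
  rw [dd_eq, map_mul, map_sub, map_sub, map_neg, map_pow, map_sub, map_neg, eps_T, eps_T, map_ofNat]
  norm_num

theorem F1_eps : eps F1 ≠ 0 := by
  unfold F1
  rw [map_mul, map_neg, map_add, map_add, map_add, eps_T, eps_T, eps_T, eps_T, map_one]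
  norm_num

theorem closure_closed (w : List (Letter 4)) : (dia (braidClosure 4) w).IsClosed := by
  refine draw_closed _ (braidClosure 4) ?_ (fun _ => rfl) ?_
  · intro x hx
    exact toN_lt w x hx
  · rw [closed_iff]
    unfold Good
    decide

theorem sameCycle_of {u : List (Letter 4)} (h : IsPure u) : 
    ∀ i j, (permW (u ++ vL)).SameCycle i j := by
  have h1 : permW (u ++ vL) = permW vL := by
    have : permW (u ++ vL) = permW u * permW vL := by simp [permW]
    rw [this, h, one_mul]
  rw [h1]
  decide

theorem toN_vL : toN vL = vv := rfl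

/-- There are pure braid words `u_0, u_1, …` on four strands such that

* the closures of `u_j σ_1 σ_2 σ_3` are classical knots with pairwise different Jones polynomials, all
different from one (the closure of `σ_1 σ_2 σ_3` is the unknot), and
* inserting `u_j` in any diagram on any surface changes its Jones polynomial by a polynomial which tends
to zero in the Habiro topology: it is divisible by `(1 - t^M)^n` for `j ≥ M ≥ 1`, `j ≥ n`. -/
theorem result : ∃ u : ℕ → List (Letter 4), (∀ j, IsPure (u j)) ∧ 
    (dia (braidClosure 4) vL).fPoly = 1 ∧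
    (∀ j, (dia (braidClosure 4) (u j ++ vL)).IsClosed ∧ ∀ a b, (permW (u j ++ vL)).SameCycle a b) ∧
    (∀ j, (dia (braidClosure 4) (u j ++ vL)).fPoly ≠ 1) ∧
    Function.Injective (fun j => (dia (braidClosure 4) (u j ++ vL)).fPoly) ∧
    ∀ M n j : ℕ, 0 < M → M ≤ j → n ≤ j → ∀ (O : Outer 4) (w : List (Letter 4)), 
      (1 - T (-4 * (M : ℤ)))^n ∣ (dia O (u j ++ w)).fPoly - (dia O w).fPoly := by
  have hw : ∀ j, ∃ u : List (Letter 4), toN u = HW (3 * j.factorial) (2 * j.factorial) j := 
    fun j => lift_word _ (HW_valid j)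
  choose U hU using hw
  have hp : ∀ j, IsPure (U j) := fun j => pure_of (by rw [hU]; exact HW_perm _ _ j)
  have hF := fun j => exists_F (3 * j.factorial) (2 * j.factorial) j
  choose F hF using hF
  have hf : ∀ (O : Outer 4) (u w : List (Letter 4)), (dia O (u ++ w)).fPoly = ff O (toN u ++ toN w) := by
    intro O u w
    rw [← toN_append]; rfl
  have hf' : ∀ j, (dia (braidClosure 4) (U j ++ vL)).fPoly = 
      1 + ((1 - T (-4))^2)^(j+1) * ((gx (3 * j.factorial) * gy (2 * j.factorial))^(j+1) * (-T (-9)) * 
        (kk^j * F1 + (T 1 - 1) * F j)) := by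
    intro j
    have e : (1 - T (-4)) * gx (3 * j.factorial) * ((1 - T (-4)) * gy (2 * j.factorial)) = 
      (1 - T (-4))^2 * (gx (3 * j.factorial) * gy (2 * j.factorial)) := by ring
    rw [hf, hU, toN_vL, hF, xx_eq, yy_eq, e, mul_pow]
    simp only [mul_assoc]
  have hG : ∀ j, eps ((gx (3 * j.factorial) * gy (2 * j.factorial))^(j+1) * (-T (-9)) * 
        (kk^j * F1 + (T 1 - 1) * F j)) ≠ 0 := by
    intro j
    have h0 := Nat.factorial_pos j
    have h1 : eps (kk^j * F1 + (T 1 - 1) * F j) ≠ 0 := by
      rw [map_add, map_mul, map_mul, map_pow, map_sub, eps_T, map_one, sub_self, zero_mul, add_zero]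
      exact mul_ne_zero (pow_ne_zero _ kk_eps) F1_eps
    rw [map_mul, map_mul, map_pow, map_mul, eps_gx, eps_gy, map_neg, eps_T]
    refine mul_ne_zero (mul_ne_zero (pow_ne_zero _ (mul_ne_zero ?_ ?_)) (by norm_num)) h1
    · exact_mod_cast (by omega : 3 * j.factorial ≠ 0)
    · exact_mod_cast (by omega : 2 * j.factorial ≠ 0)
  refine ⟨U, hp, ?_, fun j => ⟨closure_closed _, sameCycle_of (hp _)⟩, ?_, ?_, ?_⟩
  · have : (dia (braidClosure 4) vL).fPoly = ff (braidClosure 4) vv := rfl
    rw [this, ff_vv]
  · intro j h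
    rw [hf'] at h
    have h1 := add_eq_left.1 h
    rcases mul_eq_zero.1 h1 with h2 | h2
    · exact pow_ne_zero _ (pow_ne_zero _ one_sub_ne) h2
    · exact hG j (by rw [h2, map_zero])
  · exact inj_of' _ hG _ hf'
  · intro M n j hM hj hn O w
    rw [hf, hU]
    have h1 := ff_dvd O (v := toN w) (toN_lt w) (3 * j.factorial) (2 * j.factorial) j
    have h2 : (dia O w).fPoly = ff O (toN w) := rfl
    rw [h2]
    exact ((pow_dvd_pow_of_dvd (dvd_fac hM hj) n).trans (pow_dvd_pow _ (by omega))).trans h1

end Pool.Agent.Results.MP_7bc610_gt.HabiroLimit
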