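import Pool.Agent.K4H9.AL.NC

/-!
# Null-homologous knots with unit Jones polynomial and trivial determinant

Diagrams: `Pool.Agent.H891R2.Jones.Diagram` (starting library): `Crossing P`, `Diagram P` (oriented
diagrams with marked points `P`; the arcs only say which marked points are joined, so these are diagrams
of links in thickened surfaces, that is, virtual link diagrams), `Diagram.IsClosed`, `Diagram.fPoly` (the
normalised Kauffman bracket, a state sum in which all loops count equally; the Jones polynomial is `1` if
and only if `fPoly = 1`).

`Pool.Agent.K4H9.NJ.Stm`: `Move`, `Equivalent` (stable equivalence), `unknot`, `IsKnot` (closed, one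
component), `Adj`, `NullHomologous` (the regions have an Alexander numbering).  `Pool.Agent.K4H9.NJ.Col`:
`CrOK`, `IsCol` (Fox colourings with values in a commutative ring).  `Pool.Agent.K4H9.AL.Rev`: `reverse`.
`Pool.Agent.K4H9.NJ.Stm`, `Pool.Agent.K4H9.AL.Cls`: `regions`, `OnSphere`, `Classical` (stably equivalent to a
knot diagram on the sphere).

The knots: `D n = X (n + 1)`, where `X k` (`Pool.Agent.K4H9.AL.Knot`), with `8 k + 16` crossings, is the
closure of a word in a box with three strands directed upwards, downwards and upwards.  Let
`I_i(k) = v_i s_i^{2k} v_i s_i^{-2k}`, `v_i` a virtual crossing, and `w = s_1^4 I_1(1)`.  The word is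
`I_0(k) w I_0(-k) w^{-1}`.  The bracket does not see the `I_i(k)`, so it is the one of the unknot, and
`I_i(k)` changes neither the pattern of directions nor the numbers of an Alexander numbering.  In an
Alexander colouring with the parameter `t`, `I_i(k)` adds `± k (2 - t - t⁻¹)` times the difference
of the colours of the two (antiparallel) strands to both colours, and `s_1^4` adds `2 (t - 1)` times the
difference.  So `w` adds `g = t - t⁻¹` times the difference, which is `0` for `t = -1`: the knots have
only constant Fox colourings.  With `b = k (2 - t - t⁻¹)` the Alexander colourings of `X k` are those of a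
module `R / (1 - b g + b^2 g^2)`, apart from the constants.  Let `t` be a complex number for which `b g` is a
primitive sixth root of unity; then `X k` has nonconstant colourings with the parameter `t`, but the
other `X k'`, all the reverse diagrams `reverse (X k')` and the unknot have not.

They are not classical: it is proved (`Pool.Agent.K4H9.AL.Sym`) that a knot diagram on the sphere which has a
nonconstant Alexander colouring with the parameter `t` in a field has one with the parameter `t⁻¹`, and the
`X k` do not have this property.  (A nonconstant colouring `c` with the parameter `t` gives a linear relation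
of the equations of the crossings for region colourings with the parameter `t⁻¹`; on a sphere there are two more
regions than crossings, so there are at least three independent region colourings, and these give a
nonconstant colouring with the parameter `t⁻¹`.)
-/

set_option autoImplicit false

namespace Pool.Agent.Results.MP_7bc610_gt.TrivialFoxColourings

open Pool.Agent.H891R2.Jones Pool.Agent.K4H9.NJ Pool.Agent.K4H9.AL

/-- There is a sequence of knots `D n` in thickened surfaces which are null-homologous, have the Jones
polynomial of the unknot and have only constant Fox colourings (in every commutative ring, so their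
determinant is one), are not stably equivalent to the unknot or to any classical knot, are pairwise not
stably equivalent, and are not stably equivalent to the reverse of any of them (in particular they are not
invertible). -/
theorem result : ∃ (P : ℕ → Type) (_ : ∀ n, DecidableEq (P n)) (D : ∀ n, Diagram (P n)),
    (∀ n, IsKnot (D n) ∧ NullHomologous (D n) ∧ (D n).fPoly = 1 ∧
      (∀ (R : Type) [CommRing R] (c : P n → R), IsCol (D n) c → ∀ x y, c x = c y) ∧
      ¬ Equivalent (D n) unknot ∧ ¬ Classical (D n)) ∧
    (∀ n n', n ≠ n' → ¬ Equivalent (D n) (D n')) ∧
    ∀ n n', ¬ Equivalent (D n) (reverse (D n')) := by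
  refine ⟨_, fun n => inferInstance, fun n => X (n + 1), fun n => ⟨X_knot _, X_num _, X_fPoly _,
    fun R _ c hc => X_fox _ c hc, fun h => not_tr_unknot _ n.succ_pos (v1 _ _ h).1, X_nc _ n.succ_pos⟩,
    fun n n' hn h => not_tr _ _ n.succ_pos n'.succ_pos (by omega) (v1 _ _ h).1,
    fun n n' h => not_tr_rev _ _ n.succ_pos n'.succ_pos (v1 _ _ h).1⟩

end Pool.Agent.Results.MP_7bc610_gt.TrivialFoxColourings
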